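import Mathlib

namespace Pool.Agent.Results.MP_bcda77_nt.Reduction

open Finset ArithmeticFunction

/-- The deficient `k ≥ 1` with `k * n` non-deficient; `a(n)` is its least element. -/
def mult (n : ℕ) : Set ℕ :=
  {k | 1 ≤ k ∧ sigma 1 k < 2 * k ∧ 2 * (k * n) ≤ sigma 1 (k * n)}

theorem cop (a b : ℕ) (h : Nat.Coprime a b) : sigma 1 (a * b) = sigma 1 a * sigma 1 b :=
  isMultiplicative_sigma.map_mul_of_coprime h

theorem two (j : ℕ) : sigma 1 (2 ^ j) + 1 = 2 * 2 ^ j := by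
  rw [sigma_one_apply_prime_pow Nat.prime_two]
  induction j with
  | zero => simp
  | succ j ih => rw [sum_range_succ, pow_succ]; omega

theorem six (m : ℕ) (hm : 0 < m) : 12 * m ≤ sigma 1 (6 * m) := by
  rw [sigma_one_apply]
  have hs : ({m, 2 * m, 3 * m, 6 * m} : Finset ℕ) ⊆ (6 * m).divisors := by
    intro x hx
    simp only [mem_insert, mem_singleton] at hx
    rw [Nat.mem_divisors]
    refine ⟨?_, by omega⟩
    rcases hx with rfl | rfl | rfl | rfl
    · exact ⟨6, by ring⟩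
    · exact ⟨3, by ring⟩
    · exact ⟨2, by ring⟩
    · exact dvd_rfl
  refine le_trans (le_of_eq ?_) (sum_le_sum_of_subset hs)
  rw [sum_insert (by simp; omega), sum_insert (by simp; omega), sum_insert (by simp; omega),
    sum_singleton]
  omega

theorem low (q t : ℕ) (hq : 2 ≤ q) (ht : 0 < t) : q * t + t ≤ sigma 1 (q * t) := by
  rw [sigma_one_apply]
  have hne : q * t ≠ t := by nlinarith
  have hs : ({q * t, t} : Finset ℕ) ⊆ (q * t).divisors := by
    intro x hx
    simp only [mem_insert, mem_singleton] at hx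
    rw [Nat.mem_divisors]
    refine ⟨?_, by positivity⟩
    rcases hx with rfl | rfl
    · exact dvd_rfl
    · exact Dvd.intro_left _ rfl
  refine le_trans (le_of_eq ?_) (sum_le_sum_of_subset hs)
  rw [sum_pair hne]

theorem sp (p : ℕ) (hp : p.Prime) : sigma 1 p = p + 1 := by
  rw [sigma_one_apply, hp.sum_divisors]

theorem main (m : ℕ) (hm : 1 ≤ m) (p : ℕ) (hp : IsLeast {q : ℕ | q.Prime ∧ 2 ^ m < q} p) :
    (∀ n, 2 ≤ n → n < p → ¬ IsLeast (mult n) (2 ^ m)) ∧
    (IsLeast (mult p) (2 ^ m) ↔ ¬ ∃ k, sigma 1 k + 1 = 2 * k ∧ p < 2 * k ∧ k < 2 ^ m) := by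
  obtain ⟨⟨hpp, hlt⟩, hmin⟩ := hp
  obtain ⟨j, rfl⟩ : ∃ j, m = j + 1 := ⟨m - 1, by omega⟩
  have hpos : 0 < 2 ^ j := by positivity
  have hs : 2 ^ (j + 1) = 2 * 2 ^ j := by rw [pow_succ]; ring
  refine ⟨fun n hn hnp hl => ?_, ?_⟩
  · rcases Nat.even_or_odd n with ⟨t, ht⟩ | hodd
    · have h3 : 3 ∈ mult n := by
        refine ⟨by omega, by decide, ?_⟩
        have := six t (by omega)
        rw [show 3 * n = 6 * t by omega]; omega
      have h4 := hl.2 h3
      have h5 : 2 ^ (j + 1) = 2 := by omega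
      have h6 : p ≤ 3 := hmin ⟨Nat.prime_three, by omega⟩
      have h7 : n = 2 := by omega
      have h8 := hl.1.2.2
      rw [h5, h7] at h8
      revert h8; decide
    · obtain ⟨q, hq, t, rfl⟩ := Nat.exists_prime_and_dvd (show n ≠ 1 by omega)
      have ht : 0 < t := Nat.pos_of_ne_zero (by rintro rfl; omega)
      have hq2 := hq.two_le
      have hqn : q ≤ q * t := Nat.le_mul_of_pos_right _ ht
      have hq3 : q ≤ 2 ^ (j + 1) := by
        by_contra h
        have := hmin (show q ∈ {q : ℕ | q.Prime ∧ 2 ^ (j + 1) < q} from ⟨hq, by omega⟩)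
        omega
      have hqo : Odd q := Nat.Odd.of_mul_left hodd
      obtain ⟨r, hr⟩ := hqo
      have h2 := two j
      have hmem : 2 ^ j ∈ mult (q * t) := by
        refine ⟨hpos, by omega, ?_⟩
        rw [cop _ _ (Nat.Coprime.pow_left _ ((Nat.coprime_two_left).mpr hodd)), ← mul_assoc, ← h2]
        have h9 := low q t hq2 ht
        have h10 : q * t ≤ sigma 1 (2 ^ j) * t := Nat.mul_le_mul_right _ (by omega)
        have h11 := Nat.mul_le_mul_left (sigma 1 (2 ^ j)) h9
        nlinarith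
      have := hl.2 hmem
      omega
  · obtain ⟨q, hq, h1, h2⟩ := Nat.exists_prime_lt_and_le_two_mul (2 ^ (j + 1)) (by omega)
    have h3 : p ≤ q := hmin ⟨hq, h1⟩
    obtain ⟨r, hr⟩ : Odd p := hpp.odd_of_ne_two (by omega)
    have hc : ∀ k, 0 < k → k < p → sigma 1 (k * p) = sigma 1 k * (p + 1) := by
      intro k hk hkp
      rw [cop _ _ ((Nat.Prime.coprime_iff_not_dvd hpp).mpr
        (fun hd => by have := Nat.le_of_dvd hk hd; omega)).symm, sp p hpp]
    have hin : ∀ k, k < p → sigma 1 k + 1 = 2 * k → p < 2 * k → k ∈ mult p := by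
      intro k hk ha hb
      refine ⟨by omega, by omega, ?_⟩
      rw [hc k (by omega) hk, ← mul_assoc, ← ha]
      nlinarith
    constructor
    · rintro hl ⟨k, ha, hb, hk⟩
      have := hl.2 (hin k (by omega) ha hb)
      omega
    · intro hno
      refine ⟨hin _ hlt (two _) (by omega), fun k hk => ?_⟩
      by_contra hlt'
      obtain ⟨k1, k2, k3⟩ := hk
      rw [hc k (by omega) (by omega)] at k3
      have hkp : k < p := by omega
      apply hno
      have ha : sigma 1 k + 1 = 2 * k := by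
        by_contra hne
        have h4 : sigma 1 k + 2 ≤ 2 * k := by omega
        have h5 := Nat.mul_le_mul_right (p + 1) h4
        nlinarith
      refine ⟨k, ha, ?_, by omega⟩
      rw [← mul_assoc, ← ha] at k3
      nlinarith

theorem result (m : ℕ) (hm : 1 ≤ m) (p : ℕ) (hp : IsLeast {q : ℕ | q.Prime ∧ 2 ^ m < q} p) :
    (∀ n, 2 ≤ n → n < p → ¬ IsLeast (mult n) (2 ^ m)) ∧
    (IsLeast (mult p) (2 ^ m) ↔
      ¬ ∃ k, sigma 1 k + 1 = 2 * k ∧ (∀ i, k ≠ 2 ^ i) ∧ p < 2 * k ∧ k < 2 ^ m) := by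
  obtain ⟨h1, h2⟩ := main m hm p hp
  refine ⟨h1, h2.trans (not_congr ⟨?_, fun ⟨k, a, _, c⟩ => ⟨k, a, c⟩⟩)⟩
  rintro ⟨k, a, b, c⟩
  refine ⟨k, a, ?_, b, c⟩
  rintro i rfl
  have h3 : i < m := (Nat.pow_lt_pow_iff_right (by omega)).mp c
  have h4 : 2 ^ (i + 1) ≤ 2 ^ m := Nat.pow_le_pow_right (by omega) h3
  have h5 := hp.1.2
  rw [pow_succ] at h4
  omega

end Pool.Agent.Results.MP_bcda77_nt.Reduction
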